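import Pool.Agent.helper36.HK.Spec

set_option autoImplicit false

open Finset
open Pool.Agent.FI

noncomputable section

namespace Pool.Agent.HK

/-- the function as an arithmetic function -/
private def LGC_af (g : ℕ → ℂ) (h0 : g 0 = 0) : ArithmeticFunction ℂ := ⟨g, h0⟩

/-- the function times the logarithm -/
private def LGC_lg (g : ℕ → ℂ) (h0 : g 0 = 0) : ArithmeticFunction ℂ :=
  ⟨fun n => g n * (Real.log n : ℂ), by simp [h0]⟩

/-- the function times the von Mangoldt function -/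
private def LGC_vm (g : ℕ → ℂ) (h0 : g 0 = 0) : ArithmeticFunction ℂ :=
  ⟨fun n => (ArithmeticFunction.vonMangoldt n : ℂ) * g n, by simp [h0]⟩

private theorem LGC_one (g : ℕ → ℂ) (hg : CM g) :
    LGC_lg g hg.1 = LGC_vm g hg.1 * LGC_af g hg.1 := by
  ext n
  rw [ArithmeticFunction.mul_apply]
  change g n * (Real.log n : ℂ) = ∑ x ∈ n.divisorsAntidiagonal,
    ((ArithmeticFunction.vonMangoldt x.1 : ℂ) * g x.1) * g x.2
  have h1 : ∀ x ∈ n.divisorsAntidiagonal,
      ((ArithmeticFunction.vonMangoldt x.1 : ℂ) * g x.1) * g x.2 =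
        (ArithmeticFunction.vonMangoldt x.1 : ℂ) * g n := by
    intro x hx
    have h2 := (Nat.mem_divisorsAntidiagonal.1 hx).1
    rw [← h2, hg.2.2.1]
    ring
  rw [Finset.sum_congr rfl h1, ← Finset.sum_mul, mul_comm]
  congr 1
  rw [← ArithmeticFunction.vonMangoldt_sum, Complex.ofReal_sum]
  rw [Nat.sum_divisorsAntidiagonal (f := fun d _ => ((ArithmeticFunction.vonMangoldt d : ℝ) : ℂ))]

private theorem LGC_two (g h : ℕ → ℂ) (hg : g 0 = 0) (hh : h 0 = 0) (n : ℕ) :
    cv g h n * (Real.log n : ℂ) =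
      (LGC_lg g hg * LGC_af h hh + LGC_af g hg * LGC_lg h hh) n := by
  rw [ArithmeticFunction.add_apply, ArithmeticFunction.mul_apply, ArithmeticFunction.mul_apply]
  change cv g h n * (Real.log n : ℂ) = (∑ x ∈ n.divisorsAntidiagonal,
    (g x.1 * (Real.log x.1 : ℂ)) * h x.2) + ∑ x ∈ n.divisorsAntidiagonal,
    g x.1 * (h x.2 * (Real.log x.2 : ℂ))
  unfold cv
  rw [Finset.sum_mul, ← Finset.sum_add_distrib]
  refine Finset.sum_congr rfl fun x hx => ?_
  obtain ⟨h1, h2⟩ := Nat.mem_divisorsAntidiagonal.1 hx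
  have h3 : (x.1 : ℝ) ≠ 0 := by
    intro h
    apply h2
    have : x.1 = 0 := by exact_mod_cast h
    rw [← h1, this, zero_mul]
  have h4 : (x.2 : ℝ) ≠ 0 := by
    intro h
    apply h2
    have : x.2 = 0 := by exact_mod_cast h
    rw [← h1, this, mul_zero]
  rw [← h1, Nat.cast_mul, Real.log_mul h3 h4]
  push_cast
  ring

theorem LGC : LGC_stmt := by
  intro g h hg hh n
  rw [LGC_two g h hg.1 hh.1, LGC_one g hg, LGC_one h hh]
  have h1 : LGC_vm g hg.1 * LGC_af g hg.1 * LGC_af h hh.1 +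
      LGC_af g hg.1 * (LGC_vm h hh.1 * LGC_af h hh.1) =
      (LGC_vm g hg.1 + LGC_vm h hh.1) * (LGC_af g hg.1 * LGC_af h hh.1) := by ring
  rw [h1, ArithmeticFunction.mul_apply]
  refine Finset.sum_congr rfl fun x _ => ?_
  rw [ArithmeticFunction.add_apply, ArithmeticFunction.mul_apply]
  change ((ArithmeticFunction.vonMangoldt x.1 : ℂ) * g x.1 +
    (ArithmeticFunction.vonMangoldt x.1 : ℂ) * h x.1) * cv g h x.2 = LG g h x.1 * cv g h x.2
  unfold LG
  rw [mul_add]

end Pool.Agent.HK
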